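import Pool.Agent.H.MP_5aad23_co.Tree

namespace Pool.Agent.H.MP_5aad23_co
open Finset

/-- number of weak ascents of a finite sequence -/
def wasc (x : List ℕ) : ℕ :=
  #((range (x.length - 1)).filter fun j => x.getD j 0 ≤ x.getD (j + 1) 0)

/-- weak ascent sequence (indices from 0) -/
def IsWA (a : List ℕ) : Prop :=
  a.getD 0 0 = 0 ∧ ∀ i, 1 ≤ i → i < a.length → a.getD i 0 ≤ 1 + wasc (a.take i)

/-- avoidance of the pattern 210 -/
def Av210 (a : List ℕ) : Prop :=
  ¬ ∃ i j k, i < j ∧ j < k ∧ k < a.length ∧ a.getD j 0 < a.getD i 0 ∧ a.getD k 0 < a.getD j 0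

noncomputable def w210 (n : ℕ) : ℕ := Nat.card {a : List ℕ // a.length = n ∧ IsWA a ∧ Av210 a}

/-- containment of the vincular pattern 2-41-3 -/
def Contains {n : ℕ} (π : Equiv.Perm (Fin n)) : Prop :=
  ∃ i j j' k : Fin n, i < j ∧ j'.val = j.val + 1 ∧ j' < k ∧ π j' < π i ∧ π i < π k ∧ π k < π j

noncomputable def v (n : ℕ) : ℕ := Nat.card {π : Equiv.Perm (Fin n) // ¬ Contains π}

/-- the semi-Baxter succession rule -/
def SB : ℕ → ℕ → ℕ → ℕ
  | 0, _, _ => 1
  | m + 1, h, k => ∑ i ∈ range (h + k), SB m (i + 1) (if i + 1 ≤ h then k + 1 else h + k - i)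

def cnt {α : Type} (ch : ℕ → α → Finset α) : ℕ → ℕ → α → ℕ
  | 0, _, _ => 1
  | m + 1, n, x => ∑ y ∈ ch n x, cnt ch m (n + 1) y

/-! permutation side -/

def AvP (n : ℕ) (f : ℕ → ℕ) : Prop :=
  ¬ ∃ i j k, i < j ∧ j + 1 < k ∧ k < n ∧ f (j + 1) < f i ∧ f i < f k ∧ f k < f j

def Bad (n : ℕ) (f : ℕ → ℕ) (a : ℕ) : Prop :=
  ∃ i j, i < j ∧ j + 1 < n ∧ f (j + 1) < f i ∧ f i < a ∧ a ≤ f j

open Classical in
noncomputable def Act (n : ℕ) (f : ℕ → ℕ) : Finset ℕ := (range (n + 1)).filter fun a => ¬ Bad n f a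

open Classical in
noncomputable def chP (n : ℕ) (f : ℕ → ℕ) : Finset (ℕ → ℕ) :=
  (Act (n + 1) f).image (app (n + 1) f)

lemma avP_app (n : ℕ) (f : ℕ → ℕ) (a : ℕ) :
    AvP (n + 1) (app n f a) ↔ AvP n f ∧ ¬ Bad n f a := by
  constructor
  · intro h
    refine ⟨fun ⟨i, j, k, h1, h2, h3, h4, h5, h6⟩ => h ⟨i, j, k, h1, h2, by omega, ?_⟩,
      fun ⟨i, j, h1, h2, h3, h4, h5⟩ => h ⟨i, j, n, h1, h2, by omega, ?_⟩⟩
    · rw [app_lt _ _ _ i (by omega), app_lt _ _ _ j (by omega), app_lt _ _ _ k (by omega),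
        app_lt _ _ _ (j + 1) (by omega)]
      simp only [up_lt]; exact ⟨h4, h5, h6⟩
    · rw [app_lt _ _ _ i (by omega), app_lt _ _ _ j (by omega), app_n,
        app_lt _ _ _ (j + 1) (by omega)]
      unfold up; split_ifs <;> omega
  · rintro ⟨g1, g2⟩ ⟨i, j, k, h1, h2, h3, h4, h5, h6⟩
    rw [app_lt _ _ _ i (by omega)] at h4 h5
    rw [app_lt _ _ _ (j + 1) (by omega), up_lt] at h4
    rw [app_lt _ _ _ j (by omega)] at h6
    by_cases hk : k < n
    · rw [app_lt _ _ _ k hk, up_lt] at h5 h6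
      exact g1 ⟨i, j, k, h1, h2, hk, h4, h5, h6⟩
    · obtain rfl : k = n := by omega
      rw [app_n] at h5 h6
      refine g2 ⟨i, j, h1, h2, h4, ?_⟩
      unfold up at h5 h6; split_ifs at h5 h6 <;> omega

lemma bad_app {n : ℕ} {f : ℕ → ℕ} (hf : IsP (n + 1) f) (a b : ℕ) :
    Bad (n + 2) (app (n + 1) f a) b ↔
      Bad (n + 1) f (if b ≤ a then b else b - 1) ∨ (a + 1 < b ∧ b ≤ f n + 1) := by
  constructor
  · rintro ⟨i, j, h1, h2, h3, h4, h5⟩
    rw [app_lt _ _ _ i (by omega)] at h3 h4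
    rw [app_lt _ _ _ j (by omega)] at h5
    by_cases hj : j + 1 < n + 1
    · rw [app_lt _ _ _ _ hj, up_lt] at h3
      refine Or.inl ⟨i, j, h1, hj, h3, ?_⟩
      unfold up at h4 h5; split_ifs at h4 h5 ⊢ <;> omega
    · obtain rfl : j = n := by omega
      rw [app_n] at h3
      right
      unfold up at h3 h4 h5; split_ifs at h3 h4 h5 <;> omega
  · rintro (⟨i, j, h1, h2, h3, h4, h5⟩ | ⟨h1, h2⟩)
    · refine ⟨i, j, h1, by omega, ?_⟩
      rw [app_lt _ _ _ i (by omega), app_lt _ _ _ j (by omega), app_lt _ _ _ _ h2, up_lt]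
      refine ⟨h3, ?_⟩
      unfold up; split_ifs at h4 h5 ⊢ <;> omega
    · have := hf.lt n (by omega)
      obtain ⟨i, hi, e⟩ := hf.sur a (by omega)
      have hin : i ≠ n := by rintro rfl; omega
      refine ⟨i, n, by omega, by omega, ?_⟩
      rw [app_lt _ _ _ i (by omega), app_lt _ _ _ n (by omega), app_n, e]
      unfold up; split_ifs <;> omega

lemma cntP (m : ℕ) : ∀ n f, IsP (n + 1) f → cnt chP m n f =
    SB m #((Act (n + 1) f).filter (· ≤ f n)) #((Act (n + 1) f).filter (f n < ·)) := by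
  induction m with
  | zero => intro n f _; rfl
  | succ m ih =>
    intro n f hf
    classical
    have hc : #((Act (n + 1) f).filter (· ≤ f n)) + #((Act (n + 1) f).filter (f n < ·)) =
        #(Act (n + 1) f) := by
      rw [← card_filter_add_card_filter_not (s := Act (n + 1) f) (· ≤ f n)]
      simp only [not_le]
    rw [cnt, SB, chP, sum_image fun a _ b _ e => by simpa [app_n] using congrFun e (n + 1), hc]
    generalize hh : #((Act (n + 1) f).filter (· ≤ f n)) = h at *
    generalize hk : #((Act (n + 1) f).filter (f n < ·)) = k at *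
    rw [show (∑ i ∈ range #(Act (n + 1) f), SB m (i + 1)
        (if i + 1 ≤ h then k + 1 else #(Act (n + 1) f) - i)) = _ from
      (rank_sum (Act (n + 1) f) fun r => SB m r
        (if r ≤ h then k + 1 else #(Act (n + 1) f) - (r - 1))).symm]
    refine sum_congr rfl fun a ha => ?_
    have ha' : a ≤ n + 1 ∧ ¬ Bad (n + 1) f a := by simpa [Act, Nat.lt_succ_iff] using ha
    rw [ih (n + 1) _ (hf.app ha'.1), app_n]
    have hA : ∀ b, b ∈ Act (n + 1) f ↔ b ≤ n + 1 ∧ ¬ Bad (n + 1) f b := fun b => by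
      simp [Act, Nat.lt_succ_iff]
    have hB : ∀ b, b ∈ Act (n + 1 + 1) (app (n + 1) f a) ↔ b ≤ n + 2 ∧
        ¬ (Bad (n + 1) f (if b ≤ a then b else b - 1) ∨ (a + 1 < b ∧ b ≤ f n + 1)) := fun b => by
      rw [← bad_app hf]; simp [Act, Nat.lt_succ_iff]
    have e1 : (Act (n + 1 + 1) (app (n + 1) f a)).filter (· ≤ a) =
        (Act (n + 1) f).filter (· ≤ a) := by
      ext b
      simp only [mem_filter, hA, hB]
      constructor
      · rintro ⟨⟨h1, h2⟩, h3⟩
        rw [if_pos h3] at h2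
        exact ⟨⟨by omega, fun h => h2 (Or.inl h)⟩, h3⟩
      · rintro ⟨⟨h1, h2⟩, h3⟩
        rw [if_pos h3]
        exact ⟨⟨by omega, fun h => h.elim h2 (by omega)⟩, h3⟩
    have e2 : (Act (n + 1 + 1) (app (n + 1) f a)).filter (a < ·) =
        (insert a ((Act (n + 1) f).filter fun x => a < x ∧ f n < x)).image (· + 1) := by
      ext b
      simp only [mem_filter, hA, hB, mem_image, mem_insert]
      constructor
      · rintro ⟨⟨h1, h2⟩, h3⟩
        rw [if_neg (by omega)] at h2
        refine ⟨b - 1, ?_, by omega⟩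
        by_cases hb : b - 1 = a
        · exact Or.inl hb
        · refine Or.inr ⟨⟨by omega, fun h => h2 (Or.inl h)⟩, by omega, ?_⟩
          by_contra hc
          exact h2 (Or.inr (by omega))
      · rintro ⟨x, rfl | ⟨⟨h1, h2⟩, h3, h4⟩, rfl⟩
        · rw [if_neg (by omega)]
          exact ⟨⟨by omega, fun h => h.elim ha'.2 (by omega)⟩, by omega⟩
        · rw [if_neg (by omega)]
          exact ⟨⟨by omega, fun h => h.elim h2 (by omega)⟩, by omega⟩
    rw [e1, e2, card_image_of_injective _ (add_left_injective 1), card_insert_of_notMem (by simp)]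
    congr 1
    have hpos : 0 < #((Act (n + 1) f).filter (· ≤ a)) := card_pos.2 ⟨a, mem_filter.2 ⟨ha, le_rfl⟩⟩
    by_cases hl : a ≤ f n
    · rw [if_pos, ← hk]
      · congr 2
        exact filter_congr fun x _ => ⟨fun h => h.2, fun h => ⟨by omega, h⟩⟩
      · rw [← hh]
        exact card_le_card fun x hx => mem_filter.2 ⟨(mem_filter.1 hx).1,
          (mem_filter.1 hx).2.trans hl⟩
    · have h1 : h < #((Act (n + 1) f).filter (· ≤ a)) := by
        rw [← hh]
        refine card_lt_card ⟨fun x hx => mem_filter.2 ⟨(mem_filter.1 hx).1,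
          (mem_filter.1 hx).2.trans (by omega)⟩, fun hs => hl ?_⟩
        exact (mem_filter.1 (hs (mem_filter.2 ⟨ha, le_rfl⟩))).2
      rw [if_neg (by omega)]
      have := card_filter_add_card_filter_not (s := Act (n + 1) f) (· ≤ a)
      have e3 : ((Act (n + 1) f).filter fun x => a < x ∧ f n < x) =
          (Act (n + 1) f).filter fun x => ¬ x ≤ a :=
        filter_congr fun x _ => ⟨fun h => by omega, fun h => by omega⟩
      rw [e3]
      omega

lemma v_eq (n : ℕ) : v (n + 1) = SB n 1 1 := by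
  classical
  rw [v, card_perm (n + 1) _ (AvP (n + 1))]
  · have hz : IsP 1 fun _ => 0 := ⟨fun _ _ => rfl, fun _ _ => by omega, fun _ _ _ _ _ => by omega,
      fun a ha => ⟨0, by omega, by omega⟩⟩
    rw [tree (fun n f => IsP (n + 1) f ∧ AvP (n + 1) f) chP (fun _ => 0) _ _ _ (cnt chP)
      (fun _ _ _ => rfl) (fun _ _ _ _ => rfl), cntP _ _ _ hz]
    · have : Act (0 + 1) (fun _ => 0) = {0, 1} := by
        ext b
        simp only [Act, Bad, mem_filter, mem_range, mem_insert, mem_singleton]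
        exact ⟨fun h => by omega, fun h => ⟨by omega, fun ⟨i, j, h⟩ => by omega⟩⟩
      rw [this]
      rfl
    · intro x
      constructor
      · rintro ⟨h, _⟩
        funext i
        by_cases hi : i = 0
        · have := h.lt 0 (by omega); rw [hi]; omega
        · exact h.out i (by omega)
      · rintro rfl
        exact ⟨hz, fun ⟨i, j, k, h⟩ => by omega⟩
    · intro n y
      simp only [chP, mem_image, Act, mem_filter, mem_range]
      constructor
      · rintro ⟨h1, h2⟩
        obtain ⟨f, a, hf, ha, rfl⟩ := h1.dec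
        rw [avP_app] at h2
        exact ⟨f, ⟨hf, h2.1⟩, a, ⟨by omega, h2.2⟩, rfl⟩
      · rintro ⟨f, ⟨hf, h2⟩, a, ⟨h3, h4⟩, rfl⟩
        exact ⟨hf.app (by omega), (avP_app _ _ _).2 ⟨h2, h4⟩⟩
    · intro n x x' y hx hx' h1 h2
      obtain ⟨a, _, rfl⟩ := mem_image.1 h1
      obtain ⟨a', _, e⟩ := mem_image.1 h2
      exact app_inj hx.1 hx'.1 e.symm
  · intro π
    refine not_congr ⟨?_, ?_⟩
    · rintro ⟨i, j, j', k, h1, h2, h3, h4, h5, h6⟩
      refine ⟨i, j, k, h1, h2 ▸ h3, k.2, ?_⟩
      rw [← h2]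
      simp only [ext0_fin]
      exact ⟨h4, h5, h6⟩
    · rintro ⟨i, j, k, h1, h2, h3, h4⟩
      rw [ext0_lt _ i (by omega), ext0_lt _ j (by omega), ext0_lt _ k h3,
        ext0_lt _ (j + 1) (by omega)] at h4
      exact ⟨⟨i, by omega⟩, ⟨j, by omega⟩, ⟨j + 1, by omega⟩, ⟨k, h3⟩, h1, rfl, h2, h4⟩

/-! weak ascent side -/

def wa (f : ℕ → ℕ) (k : ℕ) : ℕ := #((range (k - 1)).filter fun j => f j ≤ f (j + 1))

def QW (n : ℕ) (f : ℕ → ℕ) : Prop :=
  (f 0 = 0 ∧ ∀ i, 1 ≤ i → i < n → f i ≤ 1 + wa f i) ∧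
    ¬ ∃ i j k, i < j ∧ j < k ∧ k < n ∧ f j < f i ∧ f k < f j

def BadW (n : ℕ) (f : ℕ → ℕ) (a : ℕ) : Prop := ∃ i j, i < j ∧ j < n ∧ f j < f i ∧ a < f j

open Classical in
noncomputable def chW (n : ℕ) (f : ℕ → ℕ) : Finset (ℕ → ℕ) :=
  ((range (2 + wa f (n + 1))).filter fun a => ¬ BadW (n + 1) f a).image (Function.update f (n + 1))

lemma wa_upd (f : ℕ → ℕ) (n a k : ℕ) (h : k ≤ n) : wa (Function.update f n a) k = wa f k := by
  unfold wa
  congr 1
  refine filter_congr fun j hj => ?_
  have := mem_range.1 hj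
  rw [Function.update_of_ne (by omega), Function.update_of_ne (by omega)]

lemma wa_succ (f : ℕ → ℕ) (n a : ℕ) : wa (Function.update f (n + 1) a) (n + 1 + 1) =
    wa f (n + 1) + if f n ≤ a then 1 else 0 := by
  rw [← wa_upd f (n + 1) a (n + 1) le_rfl]
  unfold wa
  simp only [Nat.add_sub_cancel, range_add_one, filter_insert]
  rw [Function.update_of_ne (by omega), Function.update_self]
  split_ifs
  · rw [card_insert_of_notMem (by simp)]
  · rfl

lemma qw_upd (n : ℕ) (f : ℕ → ℕ) (a : ℕ) : QW (n + 1 + 1) (Function.update f (n + 1) a) ↔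
    QW (n + 1) f ∧ a < 2 + wa f (n + 1) ∧ ¬ BadW (n + 1) f a := by
  have hu : ∀ i, i < n + 1 → Function.update f (n + 1) a i = f i := fun i hi =>
    Function.update_of_ne (by omega) _ _
  constructor
  · rintro ⟨⟨h1, h2⟩, h3⟩
    refine ⟨⟨⟨hu 0 (by omega) ▸ h1, fun i hi hi' => ?_⟩, fun ⟨i, j, k, h4, h5, h6, h7⟩ =>
      h3 ⟨i, j, k, h4, h5, by omega, ?_⟩⟩, ?_, fun ⟨i, j, h4, h5, h6⟩ =>
      h3 ⟨i, j, n + 1, h4, h5, by omega, ?_⟩⟩
    · have := h2 i hi (by omega)
      rwa [hu i hi', wa_upd _ _ _ _ hi'.le] at this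
    · rwa [hu i (by omega), hu j (by omega), hu k h6]
    · have := h2 (n + 1) (by omega) (by omega)
      rw [Function.update_self, wa_upd _ _ _ _ le_rfl] at this
      omega
    · rwa [hu i (by omega), hu j (by omega), Function.update_self]
  · rintro ⟨⟨⟨h1, h2⟩, h3⟩, h4, h5⟩
    refine ⟨⟨by rwa [hu 0 (by omega)], fun i hi hi' => ?_⟩, fun ⟨i, j, k, g1, g2, g3, g4⟩ => ?_⟩
    · rw [wa_upd _ _ _ _ (by omega)]
      by_cases h : i < n + 1
      · rw [hu i h]; exact h2 i hi h
      · obtain rfl : i = n + 1 := by omega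
        rw [Function.update_self]; omega
    · rw [hu i (by omega), hu j (by omega)] at g4
      by_cases h : k < n + 1
      · rw [hu k h] at g4; exact h3 ⟨i, j, k, g1, g2, h, g4⟩
      · obtain rfl : k = n + 1 := by omega
        rw [Function.update_self] at g4; exact h5 ⟨i, j, g1, g2, g4⟩

lemma cntW (m : ℕ) : ∀ n f M b H K, (∀ i, i < n + 1 → f i ≤ M) → (∃ i, i < n + 1 ∧ f i = M) →
    (∀ a, BadW (n + 1) f a ↔ a < b) → b ≤ M → M ≤ wa f (n + 1) →
    ((f n = M ∧ H + b = M + 1 ∧ K + M = 1 + wa f (n + 1)) ∨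
      (f n = b ∧ b < M ∧ H + b = M ∧ K + M = 2 + wa f (n + 1))) → cnt chW m n f = SB m H K := by
  induction m with
  | zero => intros; rfl
  | succ m ih =>
    intro n f M b H K h1 h2 h3 h4 h5 h6
    classical
    rw [cnt, SB, chW, sum_image fun a _ b _ e => by simpa using congrFun e (n + 1)]
    have e1 : ((range (2 + wa f (n + 1))).filter fun a => ¬ BadW (n + 1) f a) =
        Ico b (b + (H + K)) := by
      ext a
      simp only [mem_filter, mem_range, h3, mem_Ico]
      omega
    have hu : ∀ a i, i < n + 1 → Function.update f (n + 1) a i = f i := fun a i hi =>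
      Function.update_of_ne (by omega) _ _
    have hb : ∀ a, b ≤ a → ∀ x, BadW (n + 1 + 1) (Function.update f (n + 1) a) x ↔
        x < if a < M then a else b := by
      intro a ha x
      constructor
      · rintro ⟨i, j, g1, g2, g3, g4⟩
        rw [hu a i (by omega)] at g3
        by_cases hj : j < n + 1
        · rw [hu a j hj] at g3 g4
          have := (h3 x).1 ⟨i, j, g1, hj, g3, g4⟩
          split_ifs <;> omega
        · obtain rfl : j = n + 1 := by omega
          rw [Function.update_self] at g3 g4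
          have := h1 i g1
          split_ifs <;> omega
      · intro hx
        split_ifs at hx with hM
        · obtain ⟨i, hi, e⟩ := h2
          refine ⟨i, n + 1, hi, by omega, ?_⟩
          rw [hu a i hi, Function.update_self]; omega
        · obtain ⟨i, j, g1, g2, g3⟩ := (h3 x).2 hx
          exact ⟨i, j, g1, by omega, by rwa [hu a i (by omega), hu a j g2]⟩
    have hm : ∀ a N, M ≤ N → a ≤ N → ∀ i, i < n + 1 + 1 → Function.update f (n + 1) a i ≤ N := by
      intro a N g1 g2 i hi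
      by_cases h : i < n + 1
      · rw [hu a i h]; exact (h1 i h).trans g1
      · obtain rfl : i = n + 1 := by omega
        rwa [Function.update_self]
    obtain ⟨D, rfl⟩ := Nat.exists_eq_add_of_le h4
    obtain ⟨E, hE⟩ : ∃ E, H + K = D + E := ⟨H + K - D, by omega⟩
    rw [e1, sum_Ico_eq_sum_range, Nat.add_sub_cancel_left, hE, sum_range_add, sum_range_add,
      ← sum_range_reflect _ D]
    congr 1
    · refine sum_congr rfl fun i hi => ?_
      have hi := mem_range.1 hi
      rw [if_pos (by omega)]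
      obtain ⟨i0, hi0, e0⟩ := h2
      refine ih (n + 1) _ (b + D) (b + (D - 1 - i)) _ _ (hm _ _ le_rfl (by omega))
        ⟨i0, by omega, by rwa [hu _ _ hi0]⟩ (fun x => ?_) (by omega) ?_ (Or.inr ?_)
      · rw [hb _ (by omega), if_pos (by omega)]
      · rw [wa_succ]; omega
      · rw [wa_succ, Function.update_self]; split_ifs <;> omega
    · refine sum_congr rfl fun i hi => ?_
      have hi := mem_range.1 hi
      refine ih (n + 1) _ (b + (D + i)) b _ _ (hm _ _ (by omega) le_rfl)
        ⟨n + 1, by omega, Function.update_self ..⟩ (fun x => ?_) (by omega) ?_ (Or.inl ?_)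
      · rw [hb _ (by omega), if_neg (by omega)]
      · rw [wa_succ]; split_ifs <;> omega
      · rw [wa_succ, Function.update_self]; split_ifs <;> omega

lemma w_eq (n : ℕ) : w210 (n + 1) = SB n 1 1 := by
  classical
  rw [w210, card_list (n + 1) _ (QW (n + 1))]
  · rw [tree (fun n f => (∀ i, n + 1 ≤ i → f i = 0) ∧ QW (n + 1) f) chW (fun _ => 0) _ _ _
      (cnt chW) (fun _ _ _ => rfl) (fun _ _ _ _ => rfl)]
    · exact cntW n 0 _ 0 0 1 1 (fun _ _ => le_rfl) ⟨0, by omega, rfl⟩
        (fun a => ⟨fun ⟨i, j, h⟩ => by omega, fun h => by omega⟩) le_rfl (Nat.zero_le _)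
        (Or.inl ⟨rfl, rfl, rfl⟩)
    · intro x
      constructor
      · rintro ⟨h, h'⟩
        funext i
        by_cases hi : i = 0
        · rw [hi]; exact h'.1.1
        · exact h i (by omega)
      · rintro rfl
        exact ⟨fun _ _ => rfl, ⟨rfl, fun _ _ _ => Nat.zero_le _⟩, fun ⟨i, j, k, h⟩ => by omega⟩
    · intro n y
      simp only [chW, mem_image, mem_filter, mem_range]
      constructor
      · rintro ⟨h1, h2⟩
        have e : y = Function.update (Function.update y (n + 1) 0) (n + 1) (y (n + 1)) := by simp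
        rw [e, qw_upd] at h2
        refine ⟨_, ⟨fun i hi => ?_, h2.1⟩, _, h2.2, e.symm⟩
        by_cases h : i = n + 1
        · rw [h, Function.update_self]
        · rw [Function.update_of_ne h, h1 i (by omega)]
      · rintro ⟨f, ⟨hf, h2⟩, a, h3, rfl⟩
        exact ⟨fun i hi => by rw [Function.update_of_ne (by omega), hf i (by omega)],
          (qw_upd _ _ _).2 ⟨h2, h3⟩⟩
    · intro n x x' y hx hx' h1 h2
      obtain ⟨a, _, rfl⟩ := mem_image.1 h1
      obtain ⟨a', _, e⟩ := mem_image.1 h2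
      funext i
      by_cases h : i = n + 1
      · rw [hx.1 i h.ge, hx'.1 i h.ge]
      · have := congrFun e i
        rw [Function.update_of_ne h, Function.update_of_ne h] at this
        exact this.symm
  · intro a ha
    have : ∀ i, i < n + 1 → wasc (a.take i) = wa (fun i => a.getD i 0) i := by
      intro i hi
      unfold wasc wa
      rw [List.length_take, min_eq_left (by omega)]
      congr 1
      refine filter_congr fun j hj => ?_
      have := mem_range.1 hj
      simp [List.getD_eq_getElem?_getD, List.getElem?_take, show j < i by omega,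
        show j + 1 < i by omega]
    unfold IsWA Av210 QW
    rw [ha]
    refine and_congr (and_congr Iff.rfl (forall_congr' fun i => forall_congr' fun _ =>
      forall_congr' fun hi => ?_)) Iff.rfl
    rw [this i hi]

theorem main (n : ℕ) (hn : 1 ≤ n) : w210 n = v n := by
  obtain ⟨n, rfl⟩ := Nat.exists_eq_add_of_le' hn
  rw [w_eq, v_eq]

end Pool.Agent.H.MP_5aad23_co
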