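import Mathlib

namespace Pool.Agent.H.MP_5aad23_co
open Finset

/-- generic generating tree count -/
theorem tree {α : Type} (P : ℕ → α → Prop) (ch : ℕ → α → Finset α) (r : α)
    (h0 : ∀ x, P 0 x ↔ x = r)
    (hs : ∀ n y, P (n + 1) y ↔ ∃ x, P n x ∧ y ∈ ch n x)
    (hu : ∀ n x x' y, P n x → P n x' → y ∈ ch n x → y ∈ ch n x' → x = x')
    (S : ℕ → ℕ → α → ℕ) (S0 : ∀ n x, P n x → S 0 n x = 1)
    (S1 : ∀ m n x, P n x → S (m + 1) n x = ∑ y ∈ ch n x, S m (n + 1) y) (n : ℕ) :
    Nat.card {x // P n x} = S n 0 r := by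
  classical
  obtain ⟨L, L0, L1⟩ : ∃ L : ℕ → Finset α, L 0 = {r} ∧ ∀ n, L (n + 1) = (L n).biUnion (ch n) :=
    ⟨fun n => Nat.rec {r} (fun n l => l.biUnion (ch n)) n, rfl, fun _ => rfl⟩
  have hm : ∀ n x, x ∈ L n ↔ P n x := by
    intro n
    induction n with
    | zero => intro x; simp [L0, h0]
    | succ n ih => intro y; simp [L1, hs, ih]
  have key : ∀ n m, ∑ x ∈ L n, S m n x = S (n + m) 0 r := by
    intro n
    induction n with
    | zero => intro m; simp [L0]
    | succ n ih =>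
      intro m
      rw [L1, sum_biUnion, show n + 1 + m = n + (m + 1) by omega, ← ih]
      · exact sum_congr rfl fun x hx => (S1 m n x ((hm n x).1 hx)).symm
      · intro x hx x' hx' hne
        exact disjoint_left.2 fun y h1 h2 =>
          hne (hu n x x' y ((hm n x).1 hx) ((hm n x').1 hx') h1 h2)
  have := key n 0
  rw [sum_congr rfl fun x hx => S0 n x ((hm n x).1 hx)] at this
  simp only [sum_const, smul_eq_mul, mul_one, add_zero] at this
  rw [← this, ← Set.ncard_coe_finset]
  have : (L n : Set α) = {x | P n x} := by ext x; simp [hm]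
  rw [this]
  rfl

lemma rank_sum (A : Finset ℕ) (g : ℕ → ℕ) :
    ∑ a ∈ A, g #(A.filter (· ≤ a)) = ∑ i ∈ range #A, g (i + 1) := by
  induction A using Finset.induction_on_max with
  | empty => simp
  | insert a s ha ih =>
    have hn : a ∉ s := fun h => lt_irrefl _ (ha a h)
    rw [sum_insert hn, card_insert_of_notMem hn, sum_range_succ, ← ih, add_comm]
    congr 1
    · refine sum_congr rfl fun b hb => ?_
      rw [filter_insert, if_neg (not_le.2 (ha b hb))]
    · rw [filter_true_of_mem, card_insert_of_notMem hn]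
      intro x hx
      rcases mem_insert.1 hx with rfl | hx
      · exact le_rfl
      · exact (ha x hx).le

lemma card_tr {α β : Type} (P : α → Prop) (Q : β → Prop) (φ : α → β)
    (hφ : ∀ a a', P a → P a' → φ a = φ a' → a = a')
    (h : ∀ b, Q b ↔ ∃ a, P a ∧ φ a = b) : Nat.card {a // P a} = Nat.card {b // Q b} :=
  Nat.card_congr (Equiv.ofBijective (fun a => ⟨φ a.1, (h _).2 ⟨a.1, a.2, rfl⟩⟩)
    ⟨fun a a' e => Subtype.ext (hφ _ _ a.2 a'.2 (congrArg Subtype.val e)),
     fun b => by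
      obtain ⟨a, h1, h2⟩ := (h b.1).1 b.2
      exact ⟨⟨a, h1⟩, Subtype.ext h2⟩⟩)

/-- permutations of `0..n-1` as functions vanishing from `n` on -/
structure IsP (n : ℕ) (f : ℕ → ℕ) : Prop where
  out : ∀ i, n ≤ i → f i = 0
  lt : ∀ i, i < n → f i < n
  inj : ∀ i j, i < n → j < n → f i = f j → i = j
  sur : ∀ a, a < n → ∃ i, i < n ∧ f i = a

def up (a x : ℕ) : ℕ := if a ≤ x then x + 1 else x

def app (n : ℕ) (f : ℕ → ℕ) (a : ℕ) : ℕ → ℕ :=
  fun i => if i < n then up a (f i) else if i = n then a else 0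

lemma app_lt (n : ℕ) (f : ℕ → ℕ) (a i : ℕ) (h : i < n) : app n f a i = up a (f i) := if_pos h

lemma app_n (n : ℕ) (f : ℕ → ℕ) (a : ℕ) : app n f a n = a := by simp [app]

lemma up_lt (a x y : ℕ) : up a x < up a y ↔ x < y := by unfold up; split_ifs <;> omega

lemma IsP.app {n : ℕ} {f : ℕ → ℕ} (h : IsP n f) {a : ℕ} (ha : a ≤ n) :
    IsP (n + 1) (app n f a) := by
  refine ⟨fun i hi => ?_, fun i hi => ?_, fun i j hi hj e => ?_, fun b hb => ?_⟩
  · simp [MP_5aad23_co.app, show ¬ i < n by omega, show i ≠ n by omega]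
  · by_cases h1 : i < n
    · have := h.lt i h1
      rw [app_lt _ _ _ _ h1]; unfold up; split_ifs <;> omega
    · obtain rfl : i = n := by omega
      rw [app_n]; omega
  · by_cases h1 : i < n <;> by_cases h2 : j < n
    · rw [app_lt _ _ _ _ h1, app_lt _ _ _ _ h2] at e
      exact h.inj i j h1 h2 (by unfold up at e; split_ifs at e <;> omega)
    · obtain rfl : j = n := by omega
      rw [app_lt _ _ _ _ h1, app_n] at e
      unfold up at e; split_ifs at e <;> omega
    · obtain rfl : i = n := by omega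
      rw [app_lt _ _ _ _ h2, app_n] at e
      unfold up at e; split_ifs at e <;> omega
    · omega
  · rcases lt_trichotomy b a with h1 | rfl | h1
    · obtain ⟨i, hi, e⟩ := h.sur b (by omega)
      exact ⟨i, by omega, by rw [app_lt _ _ _ _ hi, e]; unfold up; split_ifs <;> omega⟩
    · exact ⟨n, by omega, app_n _ _ _⟩
    · obtain ⟨i, hi, e⟩ := h.sur (b - 1) (by omega)
      exact ⟨i, by omega, by rw [app_lt _ _ _ _ hi, e]; unfold up; split_ifs <;> omega⟩

lemma IsP.dec {n : ℕ} {g : ℕ → ℕ} (h : IsP (n + 1) g) :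
    ∃ f a, IsP n f ∧ a ≤ n ∧ g = MP_5aad23_co.app n f a := by
  have hne : ∀ i, i < n → g i ≠ g n := fun i hi e => by
    have := h.inj i n (by omega) (by omega) e; omega
  have hn := h.lt n (by omega)
  refine ⟨fun i => if i < n then (if g n < g i then g i - 1 else g i) else 0, g n,
    ⟨fun i hi => if_neg (by omega), fun i hi => ?_, fun i j hi hj e => ?_, fun b hb => ?_⟩,
    by omega, funext fun i => ?_⟩
  · have := h.lt i (by omega)
    have := hne i hi
    simp only [if_pos hi]; split_ifs <;> omega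
  · have := hne i hi
    have := hne j hj
    simp only [if_pos hi, if_pos hj] at e
    exact h.inj i j (by omega) (by omega) (by split_ifs at e <;> omega)
  · obtain ⟨i, hi, e⟩ := h.sur (up (g n) b) (by unfold up; split_ifs <;> omega)
    have h1 : i < n := by
      by_contra hc
      obtain rfl : i = n := by omega
      unfold up at e; split_ifs at e <;> omega
    refine ⟨i, h1, ?_⟩
    simp only [if_pos h1]
    unfold up at e; split_ifs at e ⊢ <;> omega
  · by_cases h1 : i < n
    · have := hne i h1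
      rw [app_lt _ _ _ _ h1]
      simp only [if_pos h1]
      unfold up; split_ifs <;> omega
    · by_cases h2 : i = n
      · rw [h2, app_n]
      · rw [h.out i (by omega)]; simp [MP_5aad23_co.app, h1, h2]

lemma app_inj {n : ℕ} {f f' : ℕ → ℕ} (h : IsP n f) (h' : IsP n f') {a a' : ℕ}
    (e : app n f a = app n f' a') : f = f' := by
  have e1 : a = a' := by simpa [app_n] using congrFun e n
  subst e1
  funext i
  by_cases h1 : i < n
  · have := congrFun e i
    rw [app_lt _ _ _ _ h1, app_lt _ _ _ _ h1] at this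
    unfold up at this; split_ifs at this <;> omega
  · rw [h.out i (by omega), h'.out i (by omega)]

def ext0 {n : ℕ} (π : Equiv.Perm (Fin n)) : ℕ → ℕ :=
  fun i => if h : i < n then (π ⟨i, h⟩ : ℕ) else 0

lemma ext0_fin {n : ℕ} (π : Equiv.Perm (Fin n)) (i : Fin n) : ext0 π i = π i := dif_pos i.2

lemma ext0_lt {n : ℕ} (π : Equiv.Perm (Fin n)) (i : ℕ) (h : i < n) : ext0 π i = π ⟨i, h⟩ :=
  dif_pos h

lemma isP_iff {n : ℕ} (f : ℕ → ℕ) : IsP n f ↔ ∃ π : Equiv.Perm (Fin n), ext0 π = f := by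
  constructor
  · intro h
    refine ⟨Equiv.ofBijective (fun i => ⟨f i, h.lt i i.2⟩) (Finite.injective_iff_bijective.1
      fun i j e => Fin.ext (h.inj i j i.2 j.2 (congrArg Fin.val e))), funext fun i => ?_⟩
    by_cases h1 : i < n
    · rw [ext0_lt _ _ h1]; rfl
    · rw [h.out i (by omega)]; exact dif_neg h1
  · rintro ⟨π, rfl⟩
    refine ⟨fun i hi => dif_neg (by omega), fun i hi => ?_, fun i j hi hj e => ?_, fun a ha => ?_⟩
    · rw [ext0_lt _ _ hi]; exact (π _).2
    · rw [ext0_lt _ _ hi, ext0_lt _ _ hj] at e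
      exact congrArg Fin.val (π.injective (Fin.ext e))
    · exact ⟨π.symm ⟨a, ha⟩, (π.symm _).2, by rw [ext0_fin]; simp⟩

lemma card_perm (n : ℕ) (P : Equiv.Perm (Fin n) → Prop) (Q : (ℕ → ℕ) → Prop)
    (h : ∀ π, P π ↔ Q (ext0 π)) :
    Nat.card {π // P π} = Nat.card {f // IsP n f ∧ Q f} := by
  refine card_tr _ _ ext0 (fun a a' _ _ e => Equiv.ext fun i => Fin.ext ?_) fun f => ?_
  · rw [← ext0_fin, e, ext0_fin]
  · rw [isP_iff]
    exact ⟨fun ⟨⟨π, e⟩, h2⟩ => ⟨π, (h π).2 (e ▸ h2), e⟩,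
      fun ⟨π, h1, e⟩ => ⟨⟨π, e⟩, e ▸ (h π).1 h1⟩⟩

lemma card_list (n : ℕ) (P : List ℕ → Prop) (Q : (ℕ → ℕ) → Prop)
    (h : ∀ a : List ℕ, a.length = n → (P a ↔ Q fun i => a.getD i 0)) :
    Nat.card {a : List ℕ // a.length = n ∧ P a} =
      Nat.card {f : ℕ → ℕ // (∀ i, n ≤ i → f i = 0) ∧ Q f} := by
  refine card_tr _ _ (fun a i => a.getD i 0) (fun a a' h1 h2 e => ?_) fun f => ?_
  · refine List.ext_getElem (by rw [h1.1, h2.1]) fun i hi hi' => ?_
    have := congrFun e i
    simpa [hi, hi'] using this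
  · constructor
    · rintro ⟨h1, h2⟩
      have e : (fun i => ((List.range n).map f).getD i 0) = f := by
        funext i
        by_cases hi : i < n
        · simp [hi]
        · rw [h1 i (by omega), List.getD_eq_default _ _ (by simpa using hi)]
      exact ⟨(List.range n).map f, ⟨by simp, (h _ (by simp)).2 (by rw [e]; exact h2)⟩, e⟩
    · rintro ⟨a, ⟨h1, h2⟩, rfl⟩
      exact ⟨fun i hi => List.getD_eq_default _ _ (by omega), (h a h1).1 h2⟩

end Pool.Agent.H.MP_5aad23_co
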